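import Pool.Agent.helper42.TGA.SpecD
import Pool.Agent.helper92.TGA.MKS

/-!
# TGA, row MKU (block D): the main step, with coprime multiplicities and elements of order three
-/

set_option autoImplicit false

namespace Pool.Agent.TGA

open Pool.Agent.TC Pool.Agent.TF Pool.Agent.CPT Pool.Agent.HC Pool.Agent.HC.SJ Pool.Agent.SJ
open scoped TensorProduct

noncomputable section

theorem MKU (hKGT : KGT_stmt) (hQLG : QLG_stmt) (hSEU : SEU_stmt) (hSBG : SBG_stmt) (hSRP : SRP_stmt) (hEGD : EGD_stmt) (hIOT : IOT_stmt) (hBFP : BFP_stmt) (hGDF : GDF_stmt) (hQGI : QGI_stmt) (hTGT : TGT_stmt) (hREP : REP_stmt) (hGSP : GSP_stmt) (hTMX : TMX_stmt) (hKDM : KDM_stmt) (hFDN : FDN_stmt) : MKU_stmt := by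
  classical
  intro A _ hL F hF V hE hEF D d hC hm p _ hBig hPrim hUnl b X hX B hB i₀ ξ₀ hξ₀ a₁ a₂ a₃ b₁ b₂ b₃ h ha₁ ha₂ ha₃ hb₁ hb₂ hb₃ hh
  have hSk : ∀ i, SkB (d i) (adQ (D.zV p i)) (B i) := by
    intro i
    obtain ⟨B', hB', hS'⟩ := hBFP (D.U i) (D.L i) (D.fac hC i) p
    have hBB : B i = B' := LinearMap.ext fun f => LinearMap.ext fun g => (hB i f g).trans (hB' f g).symm
    rw [hBB]
    exact hS'
  have hd : ∀ i, 0 < d i := fun i => lt_of_lt_of_le (by norm_num) (hC.hd i)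
  have hff : ∀ i, FiniteDimensional ℚ_[p] (VQ (D.L i) p) := fun i => (hFDN (D.U i) (D.L i) (D.lat i) p).1
  have hfd : ∀ i, FiniteDimensional ℂ_[p] (NQ (D.L i) p) := fun i => (hFDN (D.U i) (D.L i) (D.lat i) p).2.1
  obtain ⟨T, hT⟩ : ∃ T : Set (ExteriorAlgebra ℚ_[p] (VQ A.Lam p)), T = {X' | V.IsTate b (show HL A p from X')} := ⟨_, rfl⟩
  have hTm : ∀ X', X' ∈ T ↔ V.IsTate b (show HL A p from X') := by
    intro X'
    rw [hT]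
    rfl
  have hXT : X ∈ T := (hTm X).2 hX
  -- the Sen elements
  have hsen : ∀ ι : ℂ ≃+* PadicAlgCl p, ∃ (ρ : GOp D p) (Λ₁ : ∀ i, (D.U i →ₗ[ℂ] ℂ) → NQ (D.L i) p),
      IsSe B (MKI_Q hQLG hL D (2 * b) T) ρ ∧ ∀ i, Sn1 (D.fac hC i) p ι (B i) (ρ i) (Λ₁ i) := by
    intro ι
    obtain ⟨Λ, S, hS⟩ := hSEU A hL F hF V hE p ι b
    obtain ⟨ρ, ρB, Λ₁, hbl, hc, hs⟩ := hSBG A hL D d hC hm p ι b X Λ S (hS X hX) B hB
    refine ⟨ρ, Λ₁, ⟨?_, fun i f => ?_, fun i f g => (hs i).skew f g⟩, hs⟩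
    · show ∀ X' ∈ T, InQG D p (2 * b) X' ρ
      intro X' hX'
      refine ⟨fun i => (hs i).comm, fun _ => 0, ρB, S, (b : ℂ_[p]), ?_, hc, (hS X' ((hTm X').1 hX')).cls⟩
      have h0 : (fun i => ρ i + Polynomial.aeval (adQ (D.zV p i)) (0 : Polynomial ℂ_[p])) = ρ := by
        funext i
        rw [map_zero, add_zero]
      rw [h0]
      exact hbl
    · exact (hSRP (D.U i) (D.L i) (D.fac hC i) p ι (B i) (ρ i) (Λ₁ i) (hSk i) (hs i)).1 f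
  obtain ⟨sp⟩ := hGSP A.W A.Lam hL D p
  have hdim : ∀ i (ξ : ℂ_[p]), IsPrimitiveRoot ξ (d i) →
      Module.finrank ℂ_[p] (Module.End.eigenspace (adQ (D.zV p i)) ξ) * Nat.totient (d i) = 2 * Module.finrank ℂ (D.U i) := fun i ξ hξ =>
    hKDM (D.U i) (D.L i) (D.lat i) (D.z i) (D.stab i) (d i) (hd i) (hC.cyc i) p ξ hξ _ fun f => Module.End.mem_eigenspace_iff
  -- the ranks of the Sen elements
  have hrank : ∀ (ι : ℂ ≃+* PadicAlgCl p) (ρ : GOp D p) (Λ₁ : ∀ i, (D.U i →ₗ[ℂ] ℂ) → NQ (D.L i) p),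
      (∀ i, Sn1 (D.fac hC i) p ι (B i) (ρ i) (Λ₁ i)) → ∀ (i : Fin D.k) (τ : ℂ) (ξ : ℂ_[p]), IsPrimitiveRoot τ (d i) →
      ((ι τ : PadicAlgCl p) : ℂ_[p]) = ξ → rkE (fun i => adQ (D.zV p i)) ρ i ξ = rz (D.z i) τ ∧ ckE (fun i => adQ (D.zV p i)) ρ i ξ = rz (D.z i) τ⁻¹ := by
    intro ι ρ Λ₁ hs i τ ξ hτ e1
    have k1 := (hSRP (D.U i) (D.L i) (D.fac hC i) p ι (B i) (ρ i) (Λ₁ i) (hSk i) (hs i)).2 τ hτ
    rw [e1] at k1
    exact k1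
  have hG1 : ∀ (i : Fin D.k) (G : VM A A p) (G1 G2 : VQ (D.L i) p →ₗ[ℚ_[p]] VQ (D.L i) p),
      (∀ c v, G.ap (D.pV p i c v : VQ A.Lam p) = (D.pV p i c (G1 v) : VQ A.Lam p)) → (∀ c v, linV G (D.pV p i c v) = D.pV p i c (G2 v)) → G2 = G1 := by
    intro i G G1 G2 h1 h2
    refine LinearMap.ext fun v => MKA_inj sp i ⟨0, hm i⟩ ?_
    rw [← h2]
    exact h1 _ v
  -- not linked
  have hNoG : ∀ (i j : Fin D.k) (ξ ξ' : ℂ_[p]), V.NoF D p i j ξ ξ' →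
      NoG (fun i => adQ (D.zV p i)) (MKI_Gam V D p) i j ξ ξ' := by
    intro i j ξ ξ' hno T' hT' hTm'
    refine hno T' hT' ?_
    rintro σ G1 G2 hσ ⟨G, hgal, hGi, hGj⟩
    obtain ⟨G1', GB, x, hgd⟩ := hGDF A hL F hF V hEF D hm p σ G hσ hgal
    have he : G1' i = G1 := hG1 i G G1 (G1' i) hGi (hgd.one i)
    have he' : G1' j = G2 := hG1 j G G2 (G1' j) hGj (hgd.one j)
    rw [← he, ← he']
    exact hTm' (fun i => adQ (G1' i)) ⟨σ, G, G1', GB, x, hσ, hgal, hgd, rfl⟩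
  -- the skew elements of `Q`: eigenspaces and Galois action
  have hske : ∀ (i : Fin D.k) (ξ : ℂ_[p]), ∀ R ∈ (MKS_sk B (MKI_Q hQLG hL D (2 * b) T)).map (LinearMap.proj i), ∀ f : NQ (D.L i) p,
      f ∘ₗ D.zV p i = ξ • f → R f ∘ₗ D.zV p i = ξ • R f := by
    rintro i ξ _ ⟨R, hR, rfl⟩ f hf
    have h5 : R i (adQ (D.zV p i) f) = adQ (D.zV p i) (R i f) := InQG.comm (hR.1 X hXT) i f
    have h6 : adQ (D.zV p i) f = ξ • f := hf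
    rw [h6, map_smul] at h5
    exact h5.symm
  have hskg : ∀ (i : Fin D.k) (ξ : ℂ_[p]) (σ : Aut ℂ) (G1 : VQ (D.L i) p →ₗ[ℚ_[p]] VQ (D.L i) p), Fix F σ → V.ActI D p i σ G1 →
      ∀ R ∈ (MKS_sk B (MKI_Q hQLG hL D (2 * b) T)).map (LinearMap.proj i), ∃ R' ∈ (MKS_sk B (MKI_Q hQLG hL D (2 * b) T)).map (LinearMap.proj i),
        ∀ f : NQ (D.L i) p, f ∘ₗ D.zV p i = ξ • f → adQ G1 (R f) = R' (adQ G1 f) := by
    rintro i ξ σ G1 hσ ⟨G, hgal, hG⟩ _ ⟨R, hR, rfl⟩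
    obtain ⟨G1', GB, x, hgd⟩ := hGDF A hL F hF V hEF D hm p σ G hσ hgal
    have he' : G1' i = G1 := by
      refine LinearMap.ext fun v => MKA_inj sp i ⟨0, hm i⟩ ?_
      rw [← hgd.one i]
      exact hG _ v
    obtain ⟨R', hR', hRR⟩ := hQGI A.W A.Lam hL D hm p (2 * b) T G1' (linV G) GB x hgd ⟨X, hXT⟩
      (fun X' hX' => (hTm _).2 (hTGT A hL F V p σ G hσ hgal b X' ((hTm X').1 hX'))) R hR.1
    refine ⟨R' i, ⟨R', ⟨hR', fun j f g => ?_⟩, rfl⟩, fun f _ => ?_⟩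
    · have hx0 : (x : ℂ_[p]) ≠ 0 := fun h => hgd.x0 ((algebraMap ℚ_[p] ℂ_[p]).injective (by rw [map_zero]; exact h))
      have hsim : ∀ f g : NQ (D.L j) p, B j (adQ (G1' j) f) (adQ (G1' j) g) = (x : ℂ_[p]) * B j f g :=
        fun f g => MKA_sim hTMX (hB j) (hff j) (hgd.pol j) f g
      have hsur : Function.Surjective (adQ (G1' j)) :=
        LinearMap.surjective_of_injective (MKS_inj (hSk j) hx0 hsim)
      obtain ⟨f, rfl⟩ := hsur f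
      obtain ⟨g, rfl⟩ := hsur g
      rw [← hRR j f, ← hRR j g, hsim, hsim, ← mul_add, hR.2 j f g, mul_zero]
    · rw [← he']
      exact hRR i f
  have key := hKGT ℂ_[p] (Fin D.k) (fun i => NQ (D.L i) p) d hC.hd (fun i => (hIOT p (d i) (hd i)).2) (fun i => adQ (D.zV p i)) B hSk
    (MKI_Q hQLG hL D (2 * b) T) (MKI_Gam V D p) ?_ ?_ ?_ ?_ ?_ ?_ ?_ ?_
    i₀ ξ₀ hξ₀ a₁ a₂ a₃ b₁ b₂ b₃ h ha₁ ha₂ ha₃ hb₁ hb₂ hb₃ hh
  · obtain ⟨ρ₁, hρ₁, ρ₃, hρ₃, he, hz₁⟩ := key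
    obtain ⟨R, hR1, hR2⟩ := ((hQLG A.W A.Lam hL D p (2 * b) X).2.1 ρ₁ ρ₃ 0 (hρ₁ X hXT) (hρ₃ X hXT)).2.2.2
    refine ⟨fun i => ρ₁ i ∘ₗ ρ₃ i - ρ₃ i ∘ₗ ρ₁ i, R, he, fun j hj => ?_, hR1, hR2⟩
    show ρ₁ j ∘ₗ ρ₃ j - ρ₃ j ∘ₗ ρ₁ j = 0
    rw [hz₁ j hj, LinearMap.zero_comp, LinearMap.comp_zero, sub_zero]
  · intro R hR R' hR' X' hX'
    exact ((hQLG A.W A.Lam hL D p (2 * b) X').2.1 R R' 0 (hR X' hX') (hR' X' hX')).2.2.1
  · intro R hR i f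
    exact InQG.comm (hR X hXT) i f
  · intro q X' hX'
    have h3 := (hQLG A.W A.Lam hL D p (2 * b) X').2.2 (fun _ => 0) (fun i => - q i) (hQLG A.W A.Lam hL D p (2 * b) X').1
    have h4 : (fun i => (0 : NQ (D.L i) p →ₗ[ℂ_[p]] NQ (D.L i) p) - Polynomial.aeval (adQ (D.zV p i)) (- q i)) =
        fun i => Polynomial.aeval (adQ (D.zV p i)) (q i) := by
      funext i
      rw [map_neg, sub_neg_eq_add, zero_add]
    rw [h4] at h3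
    exact h3
  · rintro m ⟨σ, G, G1, GB, x, hσ, hgal, hgd, rfl⟩ i
    refine ⟨fun f => LinearMap.ext fun v => congrArg f (hgd.z i v).symm, (x : ℂ_[p]), ?_, fun f g => ?_⟩
    · intro h
      exact hgd.x0 ((algebraMap ℚ_[p] ℂ_[p]).injective (by rw [map_zero]; exact h))
    · exact MKA_sim hTMX (hB i) (hff i) (hgd.pol i) f g
  · rintro m ⟨σ, G, G1, GB, x, hσ, hgal, hgd, rfl⟩ R hR
    exact hQGI A.W A.Lam hL D hm p (2 * b) T G1 (linV G) GB x hgd ⟨X, hXT⟩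
      (fun X' hX' => (hTm _).2 (hTGT A hL F V p σ G hσ hgal b X' ((hTm X').1 hX'))) R hR
  · intro i ξ hξ
    rcases hBig i with (hOne | ⟨τ, hτ, hr0, hr1, hrefl⟩) | ⟨τ, n, hτ, hn, hcop⟩ | ⟨h5n, τ, hτ, hr0, hr1, hr2, hrefl⟩
    · left
      left
      obtain ⟨τ, hτ, hτ1⟩ := hOne
      obtain ⟨ι, hι⟩ := (hIOT p (d i) (hd i)).1 τ ξ hτ hξ
      obtain ⟨ρ, Λ₁, hse, hs⟩ := hsen ι
      obtain ⟨a, b', h1, h2, h3, h4⟩ := MKO_one hEGD hSRP (D.fac hC i) p ι (hfd i) (B i) (ρ i) (Λ₁ i) (hSk i) (hs i) τ hτ hτ1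
      rw [hι] at h1 h2 h4
      exact ⟨ρ, hse, a, b', h1, h2, h3, h4⟩
    · left
      right
      obtain ⟨c, hc0, hc1, ⟨ε, e, he, hεe, hN⟩, hc⟩ := hrefl ξ hξ
      obtain ⟨ι, hι⟩ := (hIOT p (d i) (hd i)).1 τ ξ hτ hξ
      obtain ⟨ρ, Λ₁, hse, hs⟩ := hsen ι
      obtain ⟨k1, k2⟩ := hrank ι ρ Λ₁ hs i τ ξ hτ hι
      refine ⟨ε, e, c, he, hεe, hc0, hc1, ?_, ρ, hse, ?_, ?_, fun hcm => ?_⟩
      · have hN' := hN ((MKS_sk B (MKI_Q hQLG hL D (2 * b) T)).map (LinearMap.proj i)) (hske i ξ) (hskg i ξ)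
        intro R hR hRs
        obtain ⟨R', ⟨R'', hR'', rfl⟩, hR'⟩ := hN' (R i) ⟨R, ⟨hR, hRs⟩, rfl⟩
        exact ⟨R'', hR''.1, hR''.2, fun f hf => hR' f hf⟩
      · rw [k1]
        exact hr0
      · rw [k2]
        exact hr1
      · obtain ⟨q1, q2⟩ := hc hcm
        refine ⟨by rw [k1, k2]; exact q1, ?_⟩
        have n1 := hdim i ξ hξ
        have t1 : 0 < Nat.totient (d i) := Nat.totient_pos.2 (hd i)
        rw [← n1] at q2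
        exact Nat.le_of_mul_le_mul_right q2 t1
    · right
      left
      obtain ⟨ι, hι⟩ := (hIOT p (d i) (hd i)).1 τ ξ hτ hξ
      obtain ⟨ρ, Λ₁, hse, hs⟩ := hsen ι
      obtain ⟨k1, -⟩ := hrank ι ρ Λ₁ hs i τ ξ hτ hι
      refine ⟨ρ, hse, ?_⟩
      have n1 := hdim i ξ hξ
      have t1 : 0 < Nat.totient (d i) := Nat.totient_pos.2 (hd i)
      have n2 : Module.finrank ℂ_[p] (Module.End.eigenspace (adQ (D.zV p i)) ξ) = n := by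
        rw [← hn] at n1
        exact Nat.eq_of_mul_eq_mul_right t1 n1
      rw [k1]
      show Nat.Coprime (rz (D.z i) τ) (Module.finrank ℂ_[p] (Module.End.eigenspace (adQ (D.zV p i)) ξ))
      rw [n2]
      exact hcop
    · right
      right
      obtain ⟨ε₁, ε₂, e₁, e₂, w, he₁, he₂, hFr, hw, hN⟩ := hrefl ξ hξ
      obtain ⟨ι, hι⟩ := (hIOT p (d i) (hd i)).1 τ ξ hτ hξ
      obtain ⟨ρ, Λ₁, hse, hs⟩ := hsen ι
      obtain ⟨k1, k2⟩ := hrank ι ρ Λ₁ hs i τ ξ hτ hι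
      refine ⟨ε₁, ε₂, e₁, e₂, w, he₁, he₂, hFr, hw, ?_, ?_, ρ, hse, ?_, ?_, ?_⟩
      · have hN' := hN ((MKS_sk B (MKI_Q hQLG hL D (2 * b) T)).map (LinearMap.proj i)) (hske i ξ) (hskg i ξ)
        intro R hR hRs
        obtain ⟨R', ⟨R'', hR'', rfl⟩, hR'⟩ := hN' (R i) ⟨R, ⟨hR, hRs⟩, rfl⟩
        exact ⟨R'', hR''.1, hR''.2, fun f hf => hR' f hf⟩
      · have n1 := hdim i ξ hξ
        have t1 : 0 < Nat.totient (d i) := Nat.totient_pos.2 (hd i)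
        rw [← n1] at h5n
        exact Nat.le_of_mul_le_mul_right h5n t1
      · rw [k1]
        exact hr0
      · rw [k2]
        exact hr1
      · rw [k1, k2]
        exact hr2
  · intro i ξ hξ S hSn hS1 hS2 hS3
    refine hPrim i ξ hξ S hSn (fun X' hX' => ⟨(hS1 X' hX').1, fun f hf => (hS1 X' hX').2 f hf⟩) hS2 ?_
    rintro X' hX' σ G1 hσ ⟨G, hgal, hG⟩
    obtain ⟨G1', GB, x, hgd⟩ := hGDF A hL F hF V hEF D hm p σ G hσ hgal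
    have he : G1' i = G1 := by
      refine LinearMap.ext fun v => MKA_inj sp i ⟨0, hm i⟩ ?_
      rw [← hgd.one i]
      exact hG _ v
    rw [← he]
    exact hS3 X' hX' (fun i => adQ (G1' i)) ⟨σ, G, G1', GB, x, hσ, hgal, hgd, rfl⟩
  · intro i j ξ ξ' hξ hξ' hne
    have n1 := hdim i ξ hξ
    have t1 : 0 < Nat.totient (d i) := Nat.totient_pos.2 (hd i)
    by_cases c1 : Nat.totient (d i) < 2 * Module.finrank ℂ (D.U i)
    swap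
    · left
      push Not at c1
      rw [← n1] at c1
      by_contra c2
      push Not at c2
      nlinarith
    right
    right
    obtain ⟨τ, hτ⟩ : ∃ τ : ℂ, IsPrimitiveRoot τ (d i) := ⟨_, Complex.isPrimitiveRoot_exp (d i) (hd i).ne'⟩
    obtain ⟨τ₂, hτ₂⟩ : ∃ τ : ℂ, IsPrimitiveRoot τ (d j) := ⟨_, Complex.isPrimitiveRoot_exp (d j) (hd j).ne'⟩
    obtain ⟨ι₀, hι₀⟩ := (hIOT p (d i) (hd i)).1 τ ξ hτ hξ
    obtain ⟨ι₁, hι₁⟩ := (hIOT p (d j) (hd j)).1 τ₂ ξ' hτ₂ hξ'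
    obtain ⟨τ', hτ'e⟩ : ∃ τ' : ℂ, ι₀ τ' = ι₁ τ₂ := ⟨ι₀.symm (ι₁ τ₂), ι₀.apply_symm_apply _⟩
    have hτ'ξ : ((ι₀ τ' : PadicAlgCl p) : ℂ_[p]) = ξ' := by rw [hτ'e, hι₁]
    have hτ' : IsPrimitiveRoot τ' (d j) := by
      have h5 : IsPrimitiveRoot (MKO_j p ι₀ τ') (d j) := by
        rw [← MKO_je, hτ'ξ]
        exact hξ'
      exact h5.of_map_of_injective (MKO_j p ι₀).injective
    have hne' : i = j → τ' ≠ τ ∧ τ' ≠ τ⁻¹ := fun hij => by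
      obtain ⟨q1, q2⟩ := hne hij
      refine ⟨fun h5 => q1 ?_, fun h5 => q2 ?_⟩
      · rw [← hτ'ξ, h5, hι₀]
      · rw [← hτ'ξ, h5, MKO_je, map_inv₀, ← MKO_je, hι₀]
    have hτ'ξi : ((ι₀ τ'⁻¹ : PadicAlgCl p) : ℂ_[p]) = ξ'⁻¹ := by
      rw [MKO_je, map_inv₀, ← MKO_je, hτ'ξ]
    -- the Sen elements of the conjugates
    have hG : ∀ ν : ℕ, Nat.Coprime ν (d i * d j) → ∃ s, IsSe B (MKI_Q hQLG hL D (2 * b) T) s ∧
        rkE (fun i => adQ (D.zV p i)) s i ξ = rz (D.z i) (τ ^ ν) ∧ ckE (fun i => adQ (D.zV p i)) s i ξ = rz (D.z i) (τ ^ ν)⁻¹ ∧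
        rkE (fun i => adQ (D.zV p i)) s j ξ' = rz (D.z j) (τ' ^ ν) ∧ ckE (fun i => adQ (D.zV p i)) s j ξ' = rz (D.z j) (τ' ^ ν)⁻¹ := by
      intro ν hν
      obtain ⟨ι, e1, e2⟩ := MKO_conj hIOT p ι₀ (d i) (d j) (hd i) (hd j) τ τ' hτ hτ' ν hν
      obtain ⟨ρ, Λ₁, hse, hs⟩ := hsen ι
      have p1 : IsPrimitiveRoot (τ ^ ν) (d i) := hτ.pow_of_coprime ν (Nat.Coprime.coprime_mul_right_right hν)
      have p2 : IsPrimitiveRoot (τ' ^ ν) (d j) := hτ'.pow_of_coprime ν (Nat.Coprime.coprime_mul_left_right hν)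
      have f1 : ((ι (τ ^ ν) : PadicAlgCl p) : ℂ_[p]) = ξ := by rw [e1, hι₀]
      have f2 : ((ι (τ' ^ ν) : PadicAlgCl p) : ℂ_[p]) = ξ' := by rw [e2, hτ'ξ]
      have r1 := hrank ι ρ Λ₁ hs i _ ξ p1 f1
      have r2 := hrank ι ρ Λ₁ hs j _ ξ' p2 f2
      exact ⟨ρ, hse, r1.1, r1.2, r2.1, r2.2⟩
    constructor
    · by_cases hall : ∀ ν : ℕ, Nat.Coprime ν (d i * d j) → rzr (D.z i) (τ ^ ν) = rzr (D.z j) (τ' ^ ν)
      · left
        have h6 := hUnl i j τ τ' hτ hτ' hne' c1 hall ι₀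
        rw [hι₀, hτ'ξ] at h6
        exact hNoG i j ξ ξ' h6
      · right
        push Not at hall
        obtain ⟨ν, hν, hn⟩ := hall
        obtain ⟨s', k1, k2, k3, k4, k5⟩ := hG ν hν
        refine ⟨s', k1, ?_⟩
        rw [k2, k3, k4, k5]
        exact hn
    · by_cases hall : ∀ ν : ℕ, Nat.Coprime ν (d i * d j) → rzr (D.z i) (τ ^ ν) = rzr (D.z j) (τ'⁻¹ ^ ν)
      · left
        have h6 := hUnl i j τ τ'⁻¹ hτ hτ'.inv (fun hij => by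
          obtain ⟨q1, q2⟩ := hne' hij
          refine ⟨fun h5 => q2 ?_, fun h5 => q1 ?_⟩
          · rw [← h5, inv_inv]
          · exact inv_injective h5) c1 hall ι₀
        rw [hι₀, hτ'ξi] at h6
        exact hNoG i j ξ ξ'⁻¹ h6
      · right
        push Not at hall
        obtain ⟨ν, hν, hn⟩ := hall
        obtain ⟨s', k1, k2, k3, k4, k5⟩ := hG ν hν
        refine ⟨s', k1, ?_⟩
        rw [k2, k3, k4, k5]
        rw [MKI_redk] at hn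
        exact hn

end

end Pool.Agent.TGA
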